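import Pool.Agent.H61.TF
import Pool.Agent.H61.KS6
import Pool.Agent.H61.Final1

set_option autoImplicit false

/-!
# Tight union-closed families: the sharp density of the members of size `k`

A finite nonempty union-closed family is called half-bounded here if no element lies in more than half
of its members; tight families are half-bounded, and Q1 (all tight families have `2 ^ k` members) is
equivalent to the assertion that all half-bounded families have `2 ^ k` members (multiply by the power set
of one new element). An element `b` is free in `F` if `F` is the product of a family and of the power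
set of `{b}`; then half of the members of `F` avoid `b`, and they form a half-bounded family.

Let `F` be union-closed and `N` a finite set such that every element of `N` lies in at most half of the
members (for instance `F` tight and `N` arbitrary). We show: if `F` has more than
`C(|N|, k-2) / 2 + O(|N| ^ (k-3))` members among the `k`-subsets of `N`, for some `k ≥ 3`, then some
element of `N` is free; for `k = 3` more than `|N| / 2` triples suffice. The constant `1/2` is best
possible. Consequently every half-bounded family is the product of a power set and of a half-bounded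
family without free elements, which has at most `C(|N|, k-2) / 2 + O(|N| ^ (k-3))` members among the
`k`-subsets of every finite set `N`, for all `k ≥ 3`, and Q1 is equivalent to its restriction to such
families, which may moreover be assumed to be separating.

Proof. The first statement is the strict form of the threshold theorem for the members of size `k` (see
`MP_75f39d_co.KSetThresholdStrict`). Twins (elements lying in the same members) can be identified without
changing the number of members.
-/

namespace Pool.Agent.Results.MP_163ab5_co.KSetDensity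

open Finset Pool.Agent.H61.FC Pool.Agent.H61.PS Pool.Agent.H61.KS

section

variable {α : Type*} [DecidableEq α]

/-- The finite family `F` of finite sets is union-closed. -/
def UnionClosed (F : Finset (Finset α)) : Prop := ∀ A ∈ F, ∀ B ∈ F, A ∪ B ∈ F

/-- The number of members of `F` containing `x`. -/
def freq (F : Finset (Finset α)) (x : α) : ℕ := (F.filter (fun A => x ∈ A)).card

/-- The number of members of `F` that are `k`-element subsets of `N`. -/
def kSets (F : Finset (Finset α)) (N : Finset α) (k : ℕ) : ℕ :=
  (F.filter (fun A => A ⊆ N ∧ A.card = k)).card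

/-- `b` can be added to and removed from all members of `F`. -/
def FreeElement (F : Finset (Finset α)) (b : α) : Prop := ∀ A ∈ F, insert b A ∈ F ∧ A.erase b ∈ F

/-- `F` is a tight union-closed family: the most frequent element lies in exactly half of the members. -/
def Tight (F : Finset (Finset α)) : Prop :=
  F.Nonempty ∧ F ≠ {∅} ∧ UnionClosed F ∧ (∀ x, 2 * freq F x ≤ F.card) ∧
    ∃ x, 2 * freq F x = F.card

/-- `F` is a nonempty union-closed family and no element lies in more than half of its members. -/
def HalfBounded (F : Finset (Finset α)) : Prop :=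
  F.Nonempty ∧ UnionClosed F ∧ ∀ x, 2 * freq F x ≤ F.card

/-- Any two different elements of the union of `F` are separated by a member. -/
def Separating (F : Finset (Finset α)) : Prop :=
  ∀ x ∈ F.sup id, ∀ y ∈ F.sup id, x ≠ y → ∃ S ∈ F, (x ∈ S ∧ y ∉ S) ∨ (y ∈ S ∧ x ∉ S)

/-- For all `k ≥ 3` and all finite `N`, at most `(C(|N|, k-2) + K k * |N| ^ (k-3)) / 2` members of `F` are
`k`-subsets of `N`. -/
def Sparse (K : ℕ → ℕ) (F : Finset (Finset α)) : Prop :=
  ∀ k : ℕ, 3 ≤ k → ∀ N : Finset α,
    2 * kSets F N k ≤ N.card.choose (k - 2) + K k * N.card ^ (k - 3)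

end

/-- The constants. -/
def KC (k : ℕ) : ℕ := if k = 3 then 0 else 2 * KQ k + 1

section

variable {α : Type*} [DecidableEq α]

theorem upper (k : ℕ) (hk : 3 ≤ k) (F : Finset (Finset α)) (N : Finset α) (hF : UnionClosed F)
    (hhalf : ∀ x ∈ N, 2 * freq F x ≤ F.card)
    (h : N.card.choose (k - 2) + KC k * N.card ^ (k - 3) < 2 * kSets F N k) :
    ∃ b ∈ N, FreeElement F b := by
  by_contra hcon
  push Not at hcon
  have e : (F.filter (fun A => A.card = k)).filter (fun A => A ⊆ N) =
      F.filter (fun A => A ⊆ N ∧ A.card = k) := by
    rw [filter_filter]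
    congr 1; ext A; exact and_comm
  rcases Nat.eq_or_lt_of_le hk with rfl | hk4
  · have h1 := upper3_strict (G := F.filter (fun A => A.card = 3))
      (fun B hB => (mem_filter.1 hB).2) hF (filter_subset _ _) N.card N rfl
      (fun x hx => hhalf x hx) (fun x hx => hcon x hx)
    unfold ins at h1
    rw [e] at h1
    unfold kSets KC at h
    simp only [Nat.sub_self, pow_zero, Nat.choose_one_right, show 3 - 2 = 1 from rfl, if_true] at h
    omega
  · have h1 := upper4_strict (G := F.filter (fun A => A.card = k)) (k := k) hk4
      (fun B hB => (mem_filter.1 hB).2) hF (filter_subset _ _) N.card N.card N rfl le_rfl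
      (fun x hx => hhalf x hx) (fun x hx => hcon x hx)
    unfold ins at h1
    rw [e, mul_assoc, ← pow_succ] at h1
    have e2 : k - 4 + 1 = k - 3 := by omega
    have e3 : KC k = 2 * KQ k + 1 := by unfold KC; rw [if_neg (by omega)]
    rw [e2] at h1
    rw [e3] at h
    unfold kSets at h
    omega

theorem lower [Infinite α] (k : ℕ) (hk : 3 ≤ k) (N : Finset α) :
    ∃ F : Finset (Finset α), UnionClosed F ∧
      N.card.choose (k - 2) ≤ 2 * kSets F N k + 3 * N.card ^ (k - 3) ∧
      ∀ x ∈ N, 2 * freq F x < F.card ∧ ¬ FreeElement F x := by
  obtain ⟨G, g1, g2, g3⟩ := low4 hk N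
  obtain ⟨F, f1, f2, f3⟩ := lower_of g1 g2
  refine ⟨F, f1, ?_, fun x hx => ⟨f3 x hx, fun hfree => ?_⟩⟩
  · have : G.card ≤ kSets F N k := f2
    omega
  · have hfree' : Free F x := hfree
    have h4 := hfree'.card
    have h5 := f3 x hx
    have h6 : (F.filter (fun A => x ∈ A)).card + (F.filter (fun A => ¬ x ∈ A)).card = F.card :=
      card_filter_add_card_filter_not (fun A => x ∈ A)
    omega

theorem sparse_of {F : Finset (Finset α)} (hF : HalfBounded F) (hfree : ∀ b, ¬ FreeElement F b) :
    Sparse KC F := by
  intro k hk N
  by_contra hcon
  push Not at hcon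
  obtain ⟨b, _, hb⟩ := upper k hk F N hF.2.1 (fun x _ => hF.2.2 x) hcon
  exact hfree b hb

end

/-- There are constants `K k`, `K 3 = 0`, with the following properties.
(1) Let `k ≥ 3`, let `F` be union-closed and let every element of `N` lie in at most half of the members.
If `F` has more than `(C(|N|, k-2) + K k * |N| ^ (k-3)) / 2` members among the `k`-subsets of `N` (more
than `|N| / 2` for `k = 3`), then some element of `N` is free.
(2) There are such families without free elements in `N` with at least
`(C(|N|, k-2) - 3 * |N| ^ (k-3)) / 2` members among the `k`-subsets of `N`.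
(3) Every half-bounded family `F` is the product of the power set of a set `R` of free elements and of the
half-bounded family of the members disjoint from `R`, which is sparse and has no free element.
(4) All tight families have `2 ^ k` members for some `k` if and only if this holds for the half-bounded
separating sparse families without free elements. -/
theorem result {α : Type*} [DecidableEq α] [Infinite α] :
    ∃ K : ℕ → ℕ, K 3 = 0 ∧
    (∀ k : ℕ, 3 ≤ k → ∀ (F : Finset (Finset α)) (N : Finset α), UnionClosed F →
      (∀ x ∈ N, 2 * freq F x ≤ F.card) →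
      N.card.choose (k - 2) + K k * N.card ^ (k - 3) < 2 * kSets F N k →
      ∃ b ∈ N, FreeElement F b) ∧
    (∀ k : ℕ, 3 ≤ k → ∀ N : Finset α, ∃ F : Finset (Finset α), UnionClosed F ∧
      N.card.choose (k - 2) ≤ 2 * kSets F N k + 3 * N.card ^ (k - 3) ∧
      ∀ x ∈ N, 2 * freq F x < F.card ∧ ¬ FreeElement F x) ∧
    (∀ F : Finset (Finset α), HalfBounded F → ∃ R : Finset α, (∀ b ∈ R, FreeElement F b) ∧
      HalfBounded (F.filter (fun A => Disjoint A R)) ∧
      (∀ b, ¬ FreeElement (F.filter (fun A => Disjoint A R)) b) ∧
      Sparse K (F.filter (fun A => Disjoint A R)) ∧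
      F.card = 2 ^ R.card * (F.filter (fun A => Disjoint A R)).card) ∧
    ((∀ F : Finset (Finset α), Tight F → ∃ k : ℕ, F.card = 2 ^ k) ↔
      ∀ F : Finset (Finset α), HalfBounded F → Separating F → (∀ b, ¬ FreeElement F b) →
        Sparse K F → ∃ k : ℕ, F.card = 2 ^ k) := by
  refine ⟨KC, rfl, fun k hk F N hF hh h => upper k hk F N hF hh h, lower, ?_, ?_⟩
  · intro F hF
    obtain ⟨R, h1, h2, h3, h4⟩ := Pool.Agent.H61.TF.structure_bal F.card F rfl hF
    exact ⟨R, h1, h2, h3, sparse_of h2 h3, h4⟩
  · constructor
    · intro h F hF _ _ _
      refine (Pool.Agent.H61.TF.tight_iff (α := α)).1 (fun G hG hne hx => ?_) F hF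
      exact h G ⟨hG.1, hne, hG.2.1, hG.2.2, hx⟩
    · intro h F hF
      refine Pool.Agent.H61.TF.reduction (fun G hG hsep hfree => ?_) _ F rfl
        ⟨hF.1, hF.2.2.1, hF.2.2.2.1⟩
      exact h G hG hsep hfree (sparse_of hG hfree)

end Pool.Agent.Results.MP_163ab5_co.KSetDensity
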