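import Pool.Agent.H61.TF
import Pool.Agent.H61.LF16

set_option autoImplicit false
set_option linter.all false

/-!
# Tight union-closed families and linear families of members

A finite nonempty union-closed family is called half-bounded here if no element lies in more than half
of its members; tight families are half-bounded. An element `b` is free in `F` if `F` is the product of
a family and of the power set of `{b}`.

Let `F` be union-closed and `N` a finite set such that every element of `N` lies in at most half of the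
members (for instance `F` tight and `N` arbitrary), and let `K ⊆ F` consist of subsets of `N` of size at
least `2`. Then some element of `N` is free in each of the following cases.

* `K` has weights `l ≥ 0` whose sum over the members through any two given points is at most `1`, and
  `∑ l(A) |A| (|A| - 1) / (2 ^ (|A| - 1) - 1) > |N|`.
* `K` is linear (any two members have at most one common point) with members of size at least `3`, and
  `K` is an FC-family (every union-closed family containing `K` has an element of `N` in at least half of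
  its members); this condition is also necessary. In particular, the average over `N` of
  `ω(x) = ∑_{A ∈ K, x ∈ A} (|A| - 1) / (2 ^ (|A| - 1) - 1)` is at least `1`. If `ω < 1`
  on `N`, then some union-closed `F ⊇ K` has all elements of `N` in fewer than half of its members, and
  none of them is free.
* `K` is a Steiner system `S(2,k,n)`, `k ≥ 3`, `n ≥ 2 ^ (k-1)`; and this fails for all Steiner systems
  with `n < 2 ^ (k-1)`.

Every half-bounded family is the product of a power set and of a half-bounded family without free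
elements, in which all the sums above are at most `|N|`, for all `N` and `K`, and which contains no linear
FC-family with members of size at least `3`; the question whether all
tight families have `2 ^ k` members is equivalent to its restriction to such families, which may moreover
be assumed to be separating.

Proof. See `MP_75f39d_co.LinearFamiliesStrict` for the criterion. Twins (elements lying in the same
members) can be identified without changing the number of members.
-/

namespace Pool.Agent.Results.MP_163ab5_co.LinearFamilies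

open Finset

/-- The finite family `F` of finite sets is union-closed. -/
def UnionClosed (F : Finset (Finset ℕ)) : Prop := ∀ A ∈ F, ∀ B ∈ F, A ∪ B ∈ F

/-- The number of members of `F` containing `x`. -/
def freq (F : Finset (Finset ℕ)) (x : ℕ) : ℕ := (F.filter (fun A => x ∈ A)).card

/-- `b` can be added to and removed from all members of `F`. -/
def FreeElement (F : Finset (Finset ℕ)) (b : ℕ) : Prop := ∀ A ∈ F, insert b A ∈ F ∧ A.erase b ∈ F

/-- `F` is a tight union-closed family: the most frequent element lies in exactly half of the members. -/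
def Tight (F : Finset (Finset ℕ)) : Prop :=
  F.Nonempty ∧ F ≠ {∅} ∧ UnionClosed F ∧ (∀ x, 2 * freq F x ≤ F.card) ∧
    ∃ x, 2 * freq F x = F.card

/-- `F` is a nonempty union-closed family and no element lies in more than half of its members. -/
def HalfBounded (F : Finset (Finset ℕ)) : Prop :=
  F.Nonempty ∧ UnionClosed F ∧ ∀ x, 2 * freq F x ≤ F.card

/-- Any two different elements of the union of `F` are separated by a member. -/
def Separating (F : Finset (Finset ℕ)) : Prop :=
  ∀ x ∈ F.sup id, ∀ y ∈ F.sup id, x ≠ y → ∃ S ∈ F, (x ∈ S ∧ y ∉ S) ∨ (y ∈ S ∧ x ∉ S)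

/-- Every finite union-closed family containing `K` in which every element of `N` lies in at most half
of the members has a free element in `N`. -/
def Splits (N : Finset ℕ) (K : Finset (Finset ℕ)) : Prop :=
  ∀ F : Finset (Finset ℕ), UnionClosed F → K ⊆ F → (∀ x ∈ N, 2 * freq F x ≤ F.card) →
    ∃ b ∈ N, FreeElement F b

/-- Every finite union-closed family containing `K` has an element of `N` in at least half of its
members (`K` is an FC-family). -/
def ForcesHalf (N : Finset ℕ) (K : Finset (Finset ℕ)) : Prop :=
  ∀ F : Finset (Finset ℕ), UnionClosed F → K ⊆ F → ∃ x ∈ N, F.card ≤ 2 * freq F x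

/-- The members of `K` are subsets of `N` of size at least `2` with weights `l ≥ 0`, and the sum of the
weights of the members through any two points of `N` is at most `1`. -/
def Admissible (N : Finset ℕ) (K : Finset (Finset ℕ)) (l : Finset ℕ → ℝ) : Prop :=
  (∀ A ∈ K, A ⊆ N ∧ 2 ≤ A.card ∧ 0 ≤ l A) ∧
    ∀ x ∈ N, ∀ y ∈ N, x ≠ y → ∑ A ∈ K.filter (fun A => x ∈ A ∧ y ∈ A), l A ≤ 1

/-- The weighted sum of the numbers `|A| (|A| - 1) / (2 ^ (|A| - 1) - 1)`. -/
noncomputable def total (K : Finset (Finset ℕ)) (l : Finset ℕ → ℝ) : ℝ :=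
  ∑ A ∈ K, l A * ((A.card : ℝ) * (A.card - 1) / (2 ^ (A.card - 1) - 1))

/-- Any two different members have at most one common element. -/
def Linear (K : Finset (Finset ℕ)) : Prop := ∀ A ∈ K, ∀ B ∈ K, A ≠ B → (A ∩ B).card ≤ 1

/-- `F` contains no finite `K` with admissible weights whose total is greater than `|N|`, and no linear
FC-family with members of size at least `3`. -/
def Sparse (F : Finset (Finset ℕ)) : Prop :=
  (∀ (N : Finset ℕ) (K : Finset (Finset ℕ)) (l : Finset ℕ → ℝ), K ⊆ F → Admissible N K l →
    total K l ≤ N.card) ∧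
  ∀ (N : Finset ℕ) (K : Finset (Finset ℕ)), K ⊆ F → (∀ A ∈ K, A ⊆ N ∧ 3 ≤ A.card) → Linear K →
    ¬ ForcesHalf N K

/-- The weight of a point. -/
noncomputable def omega (K : Finset (Finset ℕ)) (x : ℕ) : ℝ :=
  ∑ A ∈ K.filter (fun A => x ∈ A), ((A.card : ℝ) - 1) / (2 ^ (A.card - 1) - 1)

theorem splits_of {N : Finset ℕ} {K : Finset (Finset ℕ)}
    (h : ∀ F : Finset (Finset ℕ), UnionClosed F → K ⊆ F → ∃ x ∈ N, Pool.Agent.H61.LF.SF F x) :
    Splits N K := by
  intro F hF hKF hhalf
  obtain ⟨x, hx, h1 | h1⟩ := h F hF hKF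
  · have := hhalf x hx
    unfold freq at this
    omega
  · exact ⟨x, hx, h1⟩

theorem part1 {N : Finset ℕ} {K : Finset (Finset ℕ)} {l : Finset ℕ → ℝ} (hadm : Admissible N K l)
    (hsum : (N.card : ℝ) < total K l) : Splits N K :=
  splits_of fun F hF hKF => Pool.Agent.H61.LF.strict hF hKF (fun A hA => (hadm.1 A hA).1)
    (fun A hA => (hadm.1 A hA).2.1) (fun A hA => (hadm.1 A hA).2.2) hadm.2 hsum

theorem splits_of_half {N : Finset ℕ} {K : Finset (Finset ℕ)} (hK : ∀ A ∈ K, A ⊆ N ∧ 3 ≤ A.card)
    (hlin : Linear K) (h : ForcesHalf N K) : Splits N K :=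
  splits_of ((Pool.Agent.H61.LF.forces_iff (fun A hA => (hK A hA).1) hlin
    (fun A hA => (hK A hA).2)).2 h)

theorem sparse_of {F : Finset (Finset ℕ)} (hF : HalfBounded F) (hfree : ∀ b, ¬ FreeElement F b) :
    Sparse F := by
  refine ⟨fun N K l hKF hadm => ?_, fun N K hKF hK hlin h => ?_⟩
  · by_contra hcon
    push Not at hcon
    obtain ⟨b, _, hb⟩ := part1 hadm hcon F hF.2.1 hKF (fun x _ => hF.2.2 x)
    exact hfree b hb
  · obtain ⟨b, _, hb⟩ := splits_of_half hK hlin h F hF.2.1 hKF (fun x _ => hF.2.2 x)
    exact hfree b hb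

theorem not_splits {N : Finset ℕ} {K F : Finset (Finset ℕ)} (hF : UnionClosed F) (hKF : K ⊆ F)
    (h : ∀ x ∈ N, 2 * freq F x < F.card) : ¬ Splits N K := by
  intro hs
  obtain ⟨b, hb, hfree⟩ := hs F hF hKF (fun x hx => (h x hx).le)
  have h1 : Pool.Agent.H61.LF.SF F b := Or.inr hfree
  have h2 := h1.abundant
  have h3 := h b hb
  unfold freq at h3
  omega

theorem result :
    -- (1) families with weights
    (∀ (N : Finset ℕ) (K : Finset (Finset ℕ)) (l : Finset ℕ → ℝ), Admissible N K l →
      (N.card : ℝ) < total K l → Splits N K) ∧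
    -- (2) linear families
    (∀ (N : Finset ℕ) (K : Finset (Finset ℕ)), (∀ A ∈ K, A ⊆ N ∧ 3 ≤ A.card) → Linear K →
      (Splits N K ↔ ForcesHalf N K) ∧
      (N.Nonempty → (N.card : ℝ) ≤ ∑ x ∈ N, omega K x → Splits N K) ∧
      ((∀ x ∈ N, omega K x < 1) → ∃ F : Finset (Finset ℕ), UnionClosed F ∧ K ⊆ F ∧
        ∀ x ∈ N, 2 * freq F x < F.card ∧ ¬ FreeElement F x)) ∧
    -- (3) Steiner systems
    (∀ (N : Finset ℕ) (K : Finset (Finset ℕ)) (k : ℕ), 3 ≤ k → 2 ≤ N.card →
      (∀ A ∈ K, A ⊆ N ∧ A.card = k) →
      (∀ x ∈ N, ∀ y ∈ N, x ≠ y → (K.filter (fun A => x ∈ A ∧ y ∈ A)).card = 1) →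
      (Splits N K ↔ 2 ^ (k - 1) ≤ N.card)) ∧
    -- (4) the structure of the half-bounded families
    (∀ F : Finset (Finset ℕ), HalfBounded F → ∃ R : Finset ℕ, (∀ b ∈ R, FreeElement F b) ∧
      HalfBounded (F.filter (fun A => Disjoint A R)) ∧
      (∀ b, ¬ FreeElement (F.filter (fun A => Disjoint A R)) b) ∧
      Sparse (F.filter (fun A => Disjoint A R)) ∧
      F.card = 2 ^ R.card * (F.filter (fun A => Disjoint A R)).card) ∧
    -- (5) the reduction of Q1
    ((∀ F : Finset (Finset ℕ), Tight F → ∃ k : ℕ, F.card = 2 ^ k) ↔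
      ∀ F : Finset (Finset ℕ), HalfBounded F → Separating F → (∀ b, ¬ FreeElement F b) →
        Sparse F → ∃ k : ℕ, F.card = 2 ^ k) := by
  have hneg : ∀ {N : Finset ℕ} {K : Finset (Finset ℕ)}, (∀ A ∈ K, A ⊆ N ∧ 2 ≤ A.card) →
      Linear K → (∀ x ∈ N, omega K x < 1) → ∃ F : Finset (Finset ℕ), UnionClosed F ∧ K ⊆ F ∧
        ∀ x ∈ N, 2 * freq F x < F.card := by
    intro N K hK hlin h
    exact Pool.Agent.H61.LF.not_fc (fun A hA => (hK A hA).1) hlin (fun A hA => (hK A hA).2) h
  refine ⟨fun N K l hadm hsum => part1 hadm hsum, ?_, ?_, ?_, ?_⟩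
  · intro N K hK hlin
    have hK2 : ∀ A ∈ K, A ⊆ N ∧ 2 ≤ A.card := fun A hA => ⟨(hK A hA).1, by
      have := (hK A hA).2; omega⟩
    refine ⟨⟨fun hs F hF hKF => ?_, splits_of_half hK hlin⟩, fun hN h => splits_of_half hK hlin
      fun F hF hKF => ?_, fun h => ?_⟩
    · by_contra hcon
      push Not at hcon
      exact not_splits hF hKF hcon hs
    · exact Pool.Agent.H61.LF.linear_fc hF hKF hN (fun A hA => (hK A hA).1) hlin
        (fun A hA => (hK2 A hA).2) h
    obtain ⟨F, hF, hKF, hx⟩ := hneg hK2 hlin h
    refine ⟨F, hF, hKF, fun x hxN => ⟨hx x hxN, fun hfree => ?_⟩⟩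
    have h1 : Pool.Agent.H61.LF.SF F x := Or.inr hfree
    have h2 := h1.abundant
    have h3 := hx x hxN
    unfold freq at h3
    omega
  · intro N K k hk hN hK hcod
    have hk2 : 2 ≤ k := by omega
    constructor
    · intro hs
      by_contra hcon
      push Not at hcon
      obtain ⟨hlin, hom⟩ := Pool.Agent.H61.LF.steiner hk2 hN hK hcod
      have hp := Pool.Agent.H61.LF.pow_pos' hk2
      obtain ⟨F, hF, hKF, hx⟩ := hneg (N := N) (K := K)
        (fun A hA => ⟨(hK A hA).1, by rw [(hK A hA).2]; exact hk2⟩) hlin (fun x hx => by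
          have e : omega K x = ((N.card : ℝ) - 1) / (2 ^ (k - 1) - 1) := hom x hx
          rw [e, div_lt_one hp]
          have : (N.card : ℝ) < 2 ^ (k - 1) := by exact_mod_cast hcon
          linarith)
      exact not_splits hF hKF hx hs
    · intro h
      exact splits_of fun F hF hKF => Pool.Agent.H61.LF.steiner_strict hk hN hK hcod h hF hKF
  · intro F hF
    obtain ⟨R, h1, h2, h3, h4⟩ := Pool.Agent.H61.TF.structure_bal F.card F rfl hF
    exact ⟨R, h1, h2, h3, sparse_of h2 h3, h4⟩
  · constructor
    · intro h F hF _ _ _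
      refine (Pool.Agent.H61.TF.tight_iff (α := ℕ)).1 (fun G hG hne hx => ?_) F hF
      exact h G ⟨hG.1, hne, hG.2.1, hG.2.2, hx⟩
    · intro h F hF
      refine Pool.Agent.H61.TF.reduction (fun G hG hsep hfree => ?_) _ F rfl
        ⟨hF.1, hF.2.2.1, hF.2.2.2.1⟩
      exact h G hG hsep hfree (sparse_of hG hfree)

end Pool.Agent.Results.MP_163ab5_co.LinearFamilies
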